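import Mathlib
import Pool.Agent.Q164.MC.Schur
import Pool.Agent.Q164.MC.Moment
import Pool.Agent.Q164.MC.Const

open Finset

namespace Pool.Agent.Results.MP_110370_an.SharpMomentCurve

set_option linter.unusedSectionVars false

section Defs

variable {F : Type*} [Field F] [Fintype F]

/-- `e(y) = exp(2 pi i Tr(y)/p)`, where `Tr` is the trace of the finite field `F` over its prime
field `ZMod p`. -/
noncomputable def e (p : ℕ) [Fact p.Prime] [Algebra (ZMod p) F] (y : F) : ℂ :=
  Complex.exp (2 * Real.pi * Complex.I * ((Algebra.trace (ZMod p) F y).val : ℂ) / p)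

/-- The point `(t, t^2, ..., t^d)` of the moment curve. -/
def curve (d : ℕ) (t : F) : Fin d → F := fun i => t ^ (i.val + 1)

variable (F) in
open Classical in
/-- The moment curve as a finite subset of `F^d`. -/
noncomputable def Gam (d : ℕ) : Finset (Fin d → F) := univ.image (curve d)

/-- The extension operator `(f sigma)^vee (x) = q^{-1} sum_{xi in Gamma} f(xi) e(x . xi)`. -/
noncomputable def ext (p : ℕ) [Fact p.Prime] [Algebra (ZMod p) F] {d : ℕ}
    (f : Gam F d → ℂ) (x : Fin d → F) : ℂ :=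
  (1 / (Fintype.card F : ℂ)) * ∑ ξ : Gam F d, f ξ * e p (∑ i, x i * ξ.1 i)

/-- The norm of `L^{2d}(F^d)` with counting measure. -/
noncomputable def normLd (d : ℕ) (g : (Fin d → F) → ℂ) : ℝ :=
  (∑ x, ‖g x‖ ^ (2 * d)) ^ (1 / (2 * (d : ℝ)))

/-- The norm of `L^2(sigma)`, `sigma` the normalized counting measure on the moment curve. -/
noncomputable def normL2 {d : ℕ} (f : Gam F d → ℂ) : ℝ :=
  ((1 / (Fintype.card F : ℝ)) * ∑ ξ : Gam F d, ‖f ξ‖ ^ 2) ^ (1 / 2 : ℝ)

/-- The constant `C_{d,q}`.  The sum is over the partitions `l` of `d`, with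
`binom(d,l) = d!/prod l_i!` and `binom(q,b(l)) = q!/(b_0! b_1! ... b_d!)`, where `b_j` is the
number of parts equal to `j` and `b_0 = q - (number of parts)`. -/
noncomputable def Cdq (d q : ℕ) : ℝ :=
  (((q : ℝ) ^ d)⁻¹ * ∑ l : Nat.Partition d,
    ((d.factorial : ℝ) / ((l.parts.map Nat.factorial).prod : ℝ)) ^ 2 *
    ((q.factorial : ℝ) / (((q - Multiset.card l.parts).factorial : ℝ) *
      ∏ j ∈ Icc 1 d, ((l.parts.count j).factorial : ℝ)))) ^ (1 / (2 * (d : ℝ)))

end Defs

section Proof

variable {F : Type*} [Field F] [Fintype F]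

lemma curve_inj {d : ℕ} (hd : 2 ≤ d) : Function.Injective (curve (F := F) d) := by
  intro s t h
  have := congrFun h ⟨0, by omega⟩
  simpa [curve] using this

lemma mem_Gam (d : ℕ) (t : F) : curve d t ∈ Gam F d := by
  classical
  exact Finset.mem_image_of_mem _ (mem_univ t)

lemma bij {d : ℕ} (hd : 2 ≤ d) :
    Function.Bijective (fun t : F => (⟨curve d t, mem_Gam d t⟩ : Gam F d)) := by
  classical
  constructor
  · intro s t h
    exact curve_inj hd (congrArg Subtype.val h)
  · rintro ⟨ξ, hξ⟩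
    obtain ⟨t, _, rfl⟩ := Finset.mem_image.mp hξ
    exact ⟨t, rfl⟩

lemma exists_char (p : ℕ) [Fact p.Prime] [Algebra (ZMod p) F] :
    ∃ ψ : AddChar F ℂ, ψ.IsPrimitive ∧ ∀ y, e p y = ψ y := by
  refine ⟨(ZMod.stdAddChar (N := p)).compAddMonoidHom
    (Algebra.trace (ZMod p) F).toAddMonoidHom, ?_, ?_⟩
  · apply AddChar.IsPrimitive.of_ne_one
    intro h
    obtain ⟨y, hy⟩ := Algebra.trace_surjective (ZMod p) F 1
    have h1 := DFunLike.congr_fun h y
    simp only [AddChar.compAddMonoidHom_apply, LinearMap.toAddMonoidHom_coe, hy,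
      AddChar.one_apply] at h1
    rw [← AddChar.map_zero_eq_one (ZMod.stdAddChar (N := p))] at h1
    exact one_ne_zero (ZMod.injective_stdAddChar h1)
  · intro y
    simp only [AddChar.compAddMonoidHom_apply, LinearMap.toAddMonoidHom_coe, e]
    have := ZMod.stdAddChar_coe (N := p) (((Algebra.trace (ZMod p) F y).val : ℕ) : ℤ)
    push_cast at this
    rw [ZMod.natCast_zmod_val] at this
    rw [this]

lemma sum_eq [DecidableEq F] (p d : ℕ) [Fact p.Prime] [Algebra (ZMod p) F] (hd : 2 ≤ d)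
    (hdp : d < p)
    (f : Gam F d → ℂ) :
    ∑ x, ‖ext p f x‖ ^ (2 * d) = ((Fintype.card F : ℝ) ^ d)⁻¹ *
      Q164.MC.P d (fun t : F => ‖f ⟨curve d t, mem_Gam d t⟩‖ ^ 2) := by
  have : CharP F p := charP_of_injective_algebraMap (algebraMap (ZMod p) F).injective p
  obtain ⟨ψ, hψ, heψ⟩ := exists_char (F := F) p
  set g : F → ℂ := fun t => f ⟨curve d t, mem_Gam d t⟩ with hg
  set q : ℝ := (Fintype.card F : ℝ) with hq
  have hq0 : q ≠ 0 := by
    have : 0 < Fintype.card F := Fintype.card_pos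
    rw [hq]; positivity
  have h1 : ∀ x, ext p f x = (1 / (Fintype.card F : ℂ)) *
      ∑ t : F, g t * ψ (∑ i : Fin d, x i * t ^ (i.val + 1)) := by
    intro x
    unfold ext
    congr 1
    symm
    apply Fintype.sum_bijective _ (bij hd)
    intro t
    rw [heψ]
    rfl
  set a : (F → ℕ) → ℂ := fun m => (Nat.multinomial univ m : ℂ) * ∏ t, g t ^ m t with ha
  set v : (F → ℕ) → Fin d → F := fun m i => ∑ t, (m t : F) * t ^ (i.val + 1) with hv
  have h2 : ∀ x : Fin d → F, (∑ t : F, g t * ψ (∑ i : Fin d, x i * t ^ (i.val + 1))) ^ d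
      = ∑ m ∈ piAntidiag univ d, a m * ψ (∑ i, x i * v m i) := by
    intro x
    rw [Finset.sum_pow_eq_sum_piAntidiag]
    apply Finset.sum_congr rfl
    intro m _
    have e1 : ∏ t : F, ψ (∑ i : Fin d, x i * t ^ (i.val + 1)) ^ m t
        = ψ (∑ i, x i * v m i) := by
      have e2 : ∀ t : F, ψ (∑ i : Fin d, x i * t ^ (i.val + 1)) ^ m t
          = ψ (m t • ∑ i : Fin d, x i * t ^ (i.val + 1)) := by
        intro t
        rw [AddChar.map_nsmul_eq_pow]
      simp only [e2]
      have e3 := map_prod ψ.toMonoidHom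
        (fun t : F => Multiplicative.ofAdd (m t • ∑ i : Fin d, x i * t ^ (i.val + 1))) univ
      rw [← ofAdd_sum] at e3
      refine e3.symm.trans ?_
      change ψ _ = ψ _
      congr 1
      change ∑ t : F, m t • ∑ i : Fin d, x i * t ^ (i.val + 1) = _
      simp only [hv, Finset.mul_sum, Finset.smul_sum]
      rw [Finset.sum_comm]
      apply Finset.sum_congr rfl; intro i _
      apply Finset.sum_congr rfl; intro t _
      rw [nsmul_eq_mul]; ring
    simp only [mul_pow, Finset.prod_mul_distrib, e1, ha]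
    ring
  have h3 : ∀ x, ‖ext p f x‖ ^ (2 * d) = (q ^ (2 * d))⁻¹ *
      ‖∑ m ∈ piAntidiag univ d, a m * ψ (∑ i, x i * v m i)‖ ^ 2 := by
    intro x
    rw [h1, ← h2, norm_mul, mul_pow, norm_pow, ← pow_mul, mul_comm d 2]
    congr 1
    rw [norm_div, norm_one, Complex.norm_natCast, one_div, inv_pow]
  simp only [h3]
  rw [← Finset.mul_sum, Q164.MC.plancherel d ψ hψ (piAntidiag univ d) v ?_ a]
  · rw [← hq, ← mul_assoc]
    have e4 : (q ^ (2 * d))⁻¹ * q ^ d = (q ^ d)⁻¹ := by
      rw [two_mul, pow_add]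
      field_simp
    rw [e4]
    congr 1
    unfold Q164.MC.P
    apply Finset.sum_congr rfl
    intro m _
    rw [ha]
    simp only [norm_mul, norm_prod, norm_pow, Complex.norm_natCast, mul_pow]
    congr 1
    rw [← Finset.prod_pow]
    apply Finset.prod_congr rfl
    intro t _
    rw [← pow_mul, ← pow_mul, mul_comm]
  · intro m hm m' hm' h
    simp only [mem_piAntidiag] at hm hm'
    exact Q164.MC.moments_inj p d hdp m m' hm.1 hm'.1 (fun i => congrFun h i)

end Proof

/-- Sharp `L^2 -> L^{2d}` extension inequality for the moment curve over finite fields: for all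
`d ≥ 2`, all odd primes `p > d` and all finite fields `F` of characteristic `p`, the conjectured
inequality holds with the constant `C_{d,q}`, it has maximizers, and the maximizers are exactly the
nonzero functions of constant modulus. -/
theorem result (p d : ℕ) [Fact p.Prime] (_hp : p ≠ 2) (hd : 2 ≤ d) (hdp : d < p)
    (F : Type*) [Field F] [Fintype F] [Algebra (ZMod p) F] :
    (∀ f : Gam F d → ℂ, normLd d (ext p f) ≤ Cdq d (Fintype.card F) * normL2 f) ∧
    (∃ f : Gam F d → ℂ, f ≠ 0 ∧ normLd d (ext p f) = Cdq d (Fintype.card F) * normL2 f) ∧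
    (∀ f : Gam F d → ℂ, f ≠ 0 →
      (normLd d (ext p f) = Cdq d (Fintype.card F) * normL2 f ↔ ∀ ξ η, ‖f ξ‖ = ‖f η‖)) := by
  classical
  have : CharP F p := charP_of_injective_algebraMap (algebraMap (ZMod p) F).injective p
  have hpq : p ≤ Fintype.card F := by
    have h1 : p ∣ Fintype.card F := by
      rw [← CharP.cast_eq_zero_iff F p]
      exact FiniteField.cast_card_eq_zero F
    exact Nat.le_of_dvd Fintype.card_pos h1
  have hdq : d ≤ Fintype.card F := by omega
  set q : ℝ := (Fintype.card F : ℝ) with hq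
  have hq0 : 0 < q := by
    have : 0 < Fintype.card F := Fintype.card_pos
    rw [hq]; positivity
  set K : ℝ := Q164.MC.P (ι := F) d (fun _ => 1) with hK
  have hKpos : 0 < K := Q164.MC.P_one_pos d
  have hC : Cdq d (Fintype.card F) = ((q ^ d)⁻¹ * K) ^ (1 / (2 * (d : ℝ))) := by
    rw [hK, Q164.MC.P_one_eq d hdq]
    rfl
  set X : (Gam F d → ℂ) → F → ℝ := fun f t => ‖f ⟨curve d t, mem_Gam d t⟩‖ ^ 2 with hX
  have hXn : ∀ f t, 0 ≤ X f t := fun f t => by rw [hX]; positivity
  have hL : ∀ f : Gam F d → ℂ, normLd d (ext p f) = ((q ^ d)⁻¹ * Q164.MC.P d (X f)) ^ (1 / (2 * (d : ℝ))) := by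
    intro f
    unfold normLd
    rw [sum_eq p d hd hdp f]
  have hd0 : (d : ℝ) ≠ 0 := by
    have : 0 < d := by omega
    positivity
  have hR : ∀ f : Gam F d → ℂ, Cdq d (Fintype.card F) * normL2 f
      = ((q ^ d)⁻¹ * (((∑ t, X f t) / q) ^ d * K)) ^ (1 / (2 * (d : ℝ))) := by
    intro f
    have hsum : ∑ ξ : Gam F d, ‖f ξ‖ ^ 2 = ∑ t, X f t := by
      symm
      exact Fintype.sum_bijective _ (bij hd) _ _ (fun t => rfl)
    have hs0 : 0 ≤ (∑ t, X f t) / q :=
      div_nonneg (Finset.sum_nonneg fun t _ => hXn f t) hq0.le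
    have h1 : normL2 f = (((∑ t, X f t) / q) ^ d) ^ (1 / (2 * (d : ℝ))) := by
      unfold normL2
      rw [hsum, ← hq, one_div_mul_eq_div, ← Real.rpow_natCast, ← Real.rpow_mul hs0]
      congr 1
      field_simp
    rw [hC, h1, ← Real.mul_rpow (by positivity) (by positivity)]
    congr 1
    ring
  have hPn : ∀ f, 0 ≤ Q164.MC.P d (X f) := by
    intro f
    unfold Q164.MC.P
    exact Finset.sum_nonneg fun m _ => mul_nonneg (by positivity)
      (Finset.prod_nonneg fun t _ => pow_nonneg (hXn f t) _)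
  have hmain := fun f => Q164.MC.P_le (ι := F) d hd (X f) (hXn f)
  have hexp : (0 : ℝ) < 1 / (2 * (d : ℝ)) := by positivity
  have hiff : ∀ f : Gam F d → ℂ, normLd d (ext p f) = Cdq d (Fintype.card F) * normL2 f ↔
      ∀ ξ η, ‖f ξ‖ = ‖f η‖ := by
    intro f
    have hs0 : 0 ≤ (∑ t, X f t) / q :=
      div_nonneg (Finset.sum_nonneg fun t _ => hXn f t) hq0.le
    constructor
    · intro h
      rw [hL, hR] at h
      have h2 := (Real.rpow_left_inj (by have := hPn f; positivity) (by positivity) hexp.ne').mp h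
      have h3 := mul_left_cancel₀ (by positivity) h2
      have h4 := (hmain f).2 h3
      intro ξ η
      obtain ⟨s, rfl⟩ := (bij hd).2 ξ
      obtain ⟨t, rfl⟩ := (bij hd).2 η
      have h5 := h4 s t
      simp only [hX] at h5
      exact (pow_left_inj₀ (norm_nonneg _) (norm_nonneg _) two_ne_zero).mp h5
    · intro h
      rw [hL, hR]
      congr 2
      obtain ⟨c, hc⟩ : ∃ c, X f = fun _ => c := by
        refine ⟨X f 0, ?_⟩
        funext t
        simp only [hX]
        rw [h _ ⟨curve d 0, mem_Gam d 0⟩]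
      rw [hc, Q164.MC.P_const, Finset.sum_const, nsmul_eq_mul, Finset.card_univ, ← hq,
        mul_div_cancel_left₀ c hq0.ne']
  refine ⟨?_, ?_, fun f _ => hiff f⟩
  · intro f
    rw [hL, hR]
    apply Real.rpow_le_rpow (by have := hPn f; positivity) _ hexp.le
    exact mul_le_mul_of_nonneg_left (hmain f).1 (by positivity)
  · refine ⟨fun _ => 1, ?_, ?_⟩
    · intro h
      have := congrFun h ⟨curve d 0, mem_Gam d 0⟩
      simp at this
    · rw [hiff]
      intro _ _
      rfl

end Pool.Agent.Results.MP_110370_an.SharpMomentCurve
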